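import Pool.Agent.Helper21.CU.St

set_option autoImplicit false
set_option linter.unusedVariables false

open Finset

noncomputable section

namespace Pool.Agent.Helper8.CU

open Pool.Agent.Helper21.CU

open scoped Classical in
/-- the value `1` at squares, `-1` at nonsquares -/
def chi (r : ℕ) (y : ZMod r) : ℝ := if IsSquare y then 1 else -1

/-- the number of squares minus the number of nonsquares -/
theorem sum_sq (p : ℕ) [Fact p.Prime] (hp : 5 ≤ p) :
    ∑ y : ZMod p, chi p y = 1 := by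
  classical
  have hchar : ringChar (ZMod p) ≠ 2 := by
    rw [ZMod.ringChar_zmod_n]
    omega
  have h0 := quadraticChar_sum_zero (F := ZMod p) hchar
  have h1 : ∀ y : ZMod p, chi p y =
      ((quadraticChar (ZMod p) y : ℤ) : ℝ) + if y = 0 then 1 else 0 := by
    intro y
    unfold chi
    by_cases hy : y = 0
    · subst hy
      simp
    · rw [if_neg hy, add_zero]
      by_cases hs : IsSquare y
      · rw [if_pos hs, (quadraticChar_one_iff_isSquare hy).2 hs]
        norm_num
      · rw [if_neg hs, (quadraticChar_neg_one_iff_not_isSquare).2 hs]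
        norm_num
  rw [Finset.sum_congr rfl fun y _ => h1 y, Finset.sum_add_distrib]
  have h2 : ∑ y : ZMod p, ((quadraticChar (ZMod p) y : ℤ) : ℝ) = 0 := by
    rw [← Int.cast_sum, h0, Int.cast_zero]
  rw [h2, zero_add]
  simp

/-- cubing is injective -/
theorem cube_inj (p : ℕ) [Fact p.Prime] (h3 : p % 3 = 2) (x y : ZMod p) (h : x ^ 3 = y ^ 3) :
    x = y := by
  have key : ∀ z : ZMod p, (z ^ 3) ^ (2 * (p / 3) + 1) = z := by
    intro z
    rw [← pow_mul]
    have e : 3 * (2 * (p / 3) + 1) = p + (p - 1) := by omega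
    rw [e, pow_add, ZMod.pow_card, ← pow_succ']
    have e2 : p - 1 + 1 = p := by omega
    rw [e2, ZMod.pow_card]
  rw [← key x, ← key y, h]

/-- the polynomial modulo `p` -/
def ph (k s : ℤ) (p : ℕ) (x : ZMod p) : ZMod p :=
  3 * (s : ZMod p) * (4 * (k : ZMod p) - 4 * x ^ 3 - (s : ZMod p) ^ 3)

theorem cast_D (k s : ℤ) (p : ℕ) (z : ℤ) : ((D k s z : ℤ) : ZMod p) = ph k s p (z : ZMod p) := by
  unfold D ph
  push_cast
  ring

theorem ph_inj (k s : ℤ) (p : ℕ) [Fact p.Prime] (h3 : p % 3 = 2) (h5 : 5 ≤ p)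
    (hs : ¬ (p : ℤ) ∣ s) : Function.Injective (ph k s p) := by
  intro x y h
  have hs' : (s : ZMod p) ≠ 0 := by
    intro h0
    exact hs ((ZMod.intCast_zmod_eq_zero_iff_dvd s p).1 h0)
  have h12 : ((12 : ℕ) : ZMod p) ≠ 0 := by
    intro h0
    have hd := (ZMod.natCast_eq_zero_iff 12 p).1 h0
    have hp : p.Prime := Fact.out
    have h1 : (12 : ℕ) = 2 * 2 * 3 := by norm_num
    rw [h1] at hd
    rcases (Nat.Prime.dvd_mul hp).1 hd with h2 | h2
    · rcases (Nat.Prime.dvd_mul hp).1 h2 with h4 | h4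
      · have := Nat.le_of_dvd (by norm_num) h4; omega
      · have := Nat.le_of_dvd (by norm_num) h4; omega
    · have := Nat.le_of_dvd (by norm_num) h2; omega
  apply cube_inj p h3
  unfold ph at h
  have h6 : ((12 : ℕ) : ZMod p) * (s : ZMod p) * (x ^ 3 - y ^ 3) = 0 := by
    push_cast
    linear_combination -h
  rcases mul_eq_zero.1 h6 with h7 | h7
  · rcases mul_eq_zero.1 h7 with h8 | h8
    · exact absurd h8 h12
    · exact absurd h8 hs'
  · exact sub_eq_zero.1 h7

/-- the complete sum for one prime -/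
theorem one_prime (k s j : ℤ) (p : ℕ) [Fact p.Prime] (h3 : p % 3 = 2) (h5 : 5 ≤ p)
    (hs : ¬ (p : ℤ) ∣ s) :
    ∑ x : ZMod p, chi p (ph k s p (x + (s : ZMod p) * (j : ZMod p))) = 1 := by
  have hinj : Function.Injective
      (fun x : ZMod p => ph k s p (x + (s : ZMod p) * (j : ZMod p))) := by
    intro x y h
    exact add_right_cancel (ph_inj k s p h3 h5 hs h)
  have hbij : Function.Bijective
      (fun x : ZMod p => ph k s p (x + (s : ZMod p) * (j : ZMod p))) :=
    Finite.injective_iff_bijective.1 hinj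
  have := hbij.sum_comp (fun y : ZMod p => chi p y)
  rw [this]
  exact sum_sq p h5

/-- the Chinese remainder theorem for sums -/
theorem crt_sum (p q : ℕ) [Fact p.Prime] [Fact q.Prime] (hpq : p ≠ q)
    (F : ZMod p → ℝ) (H : ZMod q → ℝ) :
    ∑ v ∈ range (p * q), F ((v : ℕ) : ZMod p) * H ((v : ℕ) : ZMod q) =
      (∑ x : ZMod p, F x) * ∑ y : ZMod q, H y := by
  have hp : p.Prime := Fact.out
  have hq : q.Prime := Fact.out
  have hcop : Nat.Coprime p q := (Nat.coprime_primes hp hq).2 hpq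
  rw [Finset.sum_mul_sum, ← Finset.sum_product']
  refine Finset.sum_bij (fun v _ => (((v : ℕ) : ZMod p), ((v : ℕ) : ZMod q))) ?_ ?_ ?_ ?_
  · intro v _
    exact mem_product.2 ⟨mem_univ _, mem_univ _⟩
  · intro v hv w hw h
    rw [Prod.mk.injEq] at h
    have h1 : v ≡ w [MOD p] := (ZMod.natCast_eq_natCast_iff v w p).1 h.1
    have h2 : v ≡ w [MOD q] := (ZMod.natCast_eq_natCast_iff v w q).1 h.2
    have h3 : v ≡ w [MOD p * q] := (Nat.modEq_and_modEq_iff_modEq_mul hcop).1 ⟨h1, h2⟩
    exact Nat.ModEq.eq_of_lt_of_lt h3 (mem_range.1 hv) (mem_range.1 hw)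
  · rintro ⟨a, b⟩ _
    obtain ⟨w, hw1, hw2⟩ := Nat.chineseRemainder hcop a.val b.val
    have hpos : 0 < p * q := Nat.mul_pos hp.pos hq.pos
    refine ⟨w % (p * q), mem_range.2 (Nat.mod_lt _ hpos), ?_⟩
    have e1 : w % (p * q) ≡ w [MOD p] :=
      ((Nat.mod_modEq w (p * q)).of_dvd (Dvd.intro _ rfl))
    have e2 : w % (p * q) ≡ w [MOD q] :=
      ((Nat.mod_modEq w (p * q)).of_dvd (Dvd.intro_left _ rfl))
    refine Prod.ext ?_ ?_
    · have := (ZMod.natCast_eq_natCast_iff _ _ p).2 (e1.trans hw1)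
      simp only
      rw [this, ZMod.natCast_zmod_val]
    · have := (ZMod.natCast_eq_natCast_iff _ _ q).2 (e2.trans hw2)
      simp only
      rw [this, ZMod.natCast_zmod_val]
  · intro v _
    rfl

theorem hCSM : StCSM := by
  intro k s j p q hp hq hpq hp3 hq3 hp5 hq5 hps hqs
  have : Fact p.Prime := ⟨hp⟩
  have : Fact q.Prime := ⟨hq⟩
  have hg : ∀ (r v : ℕ), g r (D k s ((v : ℤ) + s * j)) =
      chi r (ph k s r (((v : ℕ) : ZMod r) + (s : ZMod r) * (j : ZMod r))) := by
    intro r v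
    have e : ((D k s ((v : ℤ) + s * j) : ℤ) : ZMod r) =
        ph k s r (((v : ℕ) : ZMod r) + (s : ZMod r) * (j : ZMod r)) := by
      rw [cast_D]
      push_cast
      rfl
    rw [← e]
    rfl
  have h1 : ∑ v ∈ range (p * q), g p (D k s (v + s * j)) * g q (D k s (v + s * j)) =
      ∑ v ∈ range (p * q),
        chi p (ph k s p (((v : ℕ) : ZMod p) + (s : ZMod p) * (j : ZMod p))) *
        chi q (ph k s q (((v : ℕ) : ZMod q) + (s : ZMod q) * (j : ZMod q))) := by
    refine sum_congr rfl fun v _ => ?_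
    rw [hg p v, hg q v]
  rw [h1, crt_sum p q hpq (fun x => chi p (ph k s p (x + (s : ZMod p) * (j : ZMod p))))
    (fun x => chi q (ph k s q (x + (s : ZMod q) * (j : ZMod q)))),
    one_prime k s j p hp3 hp5 hps, one_prime k s j q hq3 hq5 hqs, mul_one]

end Pool.Agent.Helper8.CU
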